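import Pool.Agent.K6.H97.UP.Final
import Pool.Agent.N709.UM.Main3

set_option autoImplicit false

/-!
MP_c4a55f_al, Q1 (partial): the product of an arbitrary family of second countable (equivalently,
metrizable and separable) Raikov complete minimal groups, that is, of minimal Polish groups, is
minimal.  No further hypothesis on the factors is needed.  More generally the product of a family
of topological groups `G i` is minimal if every `G i` has a compact normal subgroup `K i` such that
`G i / K i` is minimal and is second countable and Raikov complete, or has a compact centre with
minimal quotient.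

Idea.  By the starting library (`Pool.Agent.N709.UM.prod_min2`) it is enough to show that in such a
factor `G` every ultrafilter which is asymptotically central and leaves a generating pseudonorm
asymptotically invariant converges.  If one does not converge, there are two cases.  Either for some
`δ > 0` and every `e` there is such an ultrafilter whose `e`-th powers are `δ`-spread; products of
these give letters with all powers spread, and the topology in which a fast sequence of such letters
tends to `1` is Hausdorff, which contradicts minimality.  Or the powers `x ^ L`, `L` a multiple of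
`L_n`, of all almost central elements are close to a compact central subgroup `C`.  Then, with a
doubling argument for the characters of `C`, the differences of a fast sequence have collectively
small `L_n`-th powers, which gives for every `n` a pseudonorm close to the given one in which the
`L_n`-th powers of the letters tend to `1`; for a subsequence of differences every power is either
negligible or spread with respect to each of these pseudonorms, and again the topology in which it
tends to `1` is Hausdorff.

Credits: the leaves were proved by helper11 (COL, SEQ), helper13 (AIC), helper15 (NC1, NC2),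
helper44 (LOCK), helper45 (D1), helper53 (CCP, CAP), helper84 (PWR, CSG, DER, NI), helper96 (EX, WD,
SLY); proof, SEP and assembly by helper97.
-/

open Topology

namespace Pool.Agent.Results.MP_c4a55f_al.SecondCountableFactors

universe u v

/-- A Hausdorff topological group `(G, t)` is minimal if every Hausdorff group topology `s` on `G`
which is coarser than `t` (in Lean: `t ≤ s`) is equal to `t`. -/
structure MinimalGroup (G : Type u) [Group G] [t : TopologicalSpace G] : Prop where
  isTopologicalGroup : IsTopologicalGroup G
  t2 : T2Space G
  minimal : ∀ s : TopologicalSpace G, @IsTopologicalGroup G s _ → @T2Space G s → t ≤ s → s = t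

/-- Raikov completeness: every filter that is Cauchy for the two-sided uniformity, with basic
entourages `{(x, y) | x⁻¹ y ∈ U and y x⁻¹ ∈ U}`, converges. -/
def RaikovComplete (G : Type u) [Group G] [TopologicalSpace G] : Prop :=
  ∀ F : Filter G, F.NeBot →
    (∀ U ∈ 𝓝 (1 : G), ∃ A ∈ F, ∀ x ∈ A, ∀ y ∈ A, x⁻¹ * y ∈ U ∧ y * x⁻¹ ∈ U) →
    ∃ z : G, F ≤ 𝓝 z

/-- The kinds of minimal groups allowed in the second part of the theorem. -/
inductive Admissible (G : Type u) [Group G] [TopologicalSpace G] : Prop
  | secondCountable : MinimalGroup G → SecondCountableTopology G → RaikovComplete G →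
      Admissible G
  | locallyCompact : MinimalGroup G → SecondCountableTopology G → LocallyCompactSpace G →
      Admissible G
  | compactCentre : MinimalGroup G → IsCompact (Subgroup.center G : Set G) →
      MinimalGroup (G ⧸ Subgroup.center G) → Admissible G

theorem adm {I : Type v} {G : I → Type u} [∀ i, Group (G i)] [∀ i, TopologicalSpace (G i)]
    (h : ∀ i, Admissible (G i)) : Pool.Agent.N709.UM.Min (∀ i, G i) := by
  have h0 : ∀ i, MinimalGroup (G i) := by
    intro i
    rcases h i with ⟨h1, -, -⟩ | ⟨h1, -, -⟩ | ⟨h1, -, -⟩ <;> exact h1
  have h1 : ∀ i, IsTopologicalGroup (G i) := fun i => (h0 i).isTopologicalGroup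
  have h2 : ∀ i, T2Space (G i) := fun i => (h0 i).t2
  refine Pool.Agent.N709.UM.prod_min2 I G (fun i => (h0 i).minimal) ?_
  intro i
  rcases h i with ⟨hm, hsc, hrc⟩ | ⟨hm, hsc, hlc⟩ | ⟨hm, hc, hq⟩
  · exact Or.inr (Or.inr (Pool.Agent.K6.H97.UP.star4 (G i) hrc hm.minimal))
  · exact Or.inl (Pool.Agent.N709.UM.star (G i) hm.minimal)
  · exact Or.inr (Or.inl ⟨hc, hq.minimal⟩)

/-- **Arbitrary products of second countable Raikov complete minimal groups are minimal**; more
generally, arbitrary products of Hausdorff groups with compact normal subgroups such that the
quotients are admissible are minimal. -/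
theorem result :
    (∀ (I : Type v) (G : I → Type u) [∀ i, Group (G i)] [∀ i, TopologicalSpace (G i)],
      (∀ i, MinimalGroup (G i)) → (∀ i, SecondCountableTopology (G i)) →
      (∀ i, RaikovComplete (G i)) → MinimalGroup (∀ i, G i)) ∧
    (∀ (I : Type v) (G : I → Type u) [∀ i, Group (G i)] [∀ i, TopologicalSpace (G i)]
      [∀ i, IsTopologicalGroup (G i)] [∀ i, T2Space (G i)] (K : ∀ i, Subgroup (G i))
      [∀ i, (K i).Normal], (∀ i, IsCompact (K i : Set (G i))) →
      (∀ i, Admissible (G i ⧸ K i)) → MinimalGroup (∀ i, G i)) := by
  constructor
  · intro I G _ _ hmin hsc hrc
    have h1 : ∀ i, IsTopologicalGroup (G i) := fun i => (hmin i).isTopologicalGroup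
    have h2 : ∀ i, T2Space (G i) := fun i => (hmin i).t2
    exact ⟨inferInstance, inferInstance,
      adm fun i => Admissible.secondCountable (hmin i) (hsc i) (hrc i)⟩
  · intro I G _ _ _ _ K _ hK h
    exact ⟨inferInstance, inferInstance, Pool.Agent.K6.H97.UP.prod_of_quot I G K hK (adm h)⟩

end Pool.Agent.Results.MP_c4a55f_al.SecondCountableFactors
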